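import Mathlib
import Pool.Agent.AAP.Defs

set_option autoImplicit false

/-!
# Random numerators over a fixed denominator: definitions
-/

namespace Pool.Agent.PLY

open NumberField IsDedekindDomain
open Pool.Agent.PNH (Tup app mp IsMor Cert)
open Pool.Agent.AAP (wd fm SP Periodic)
open Pool.Agent.TameArb (PosDens)

/-- The form with the coefficients `t 1, …, t (d + 1)` and the form `t 0 * H`. -/
noncomputable def pf {A : Type} [CommRing A] {d : ℕ} (H : MvPolynomial (Fin 2) A)
    (t : Fin (d + 2) → A) : Tup 1 A :=
  ![fm fun i : Fin (d + 1) => t i.succ, MvPolynomial.C (t 0) * H]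

/-- `F` is a rational map of degree `d`, and for all finite sets of nonperiodic points the set of
good primes has positive density. -/
def Gd {K : Type} [Field K] [NumberField K] (d : ℕ) (F : Tup 1 K) : Prop :=
  IsMor d K F ∧ ∀ Γ : Finset (Fin 2 → K), (∀ x ∈ Γ, x ≠ 0 ∧ ¬ Periodic F x) → PosDens (SP F Γ)

end Pool.Agent.PLY
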