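import Mathlib
import Pool.Agent.PLY.Defs
import Pool.Agent.AAP.NMp

set_option autoImplicit false

/-!
# Forms without zero modulo a prime
-/

namespace Pool.Agent.PLY

open NumberField IsDedekindDomain
open scoped WithZero
open Pool.Agent.PNH (Tup app mp IsMor Cert)
open Pool.Agent.AAP
open Pool.Agent.AAP.PosA (ex exists_ex coeff_fm hom_fm hom_tp)
open Pool.Agent.AAP.NMpA (exists_int unit_iff)

section Val

variable {k : Type} [Field k] {v : Valuation k ℤᵐ⁰} {d : ℕ}

theorem coeff_lt {a : Fin (d + 1) → k} (h : ∀ j, v (a j) < 1) (m : Fin 2 →₀ ℕ) :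
    v ((fm a).coeff m) < 1 := by
  by_cases hm : m.degree = d
  · obtain ⟨j, rfl⟩ := exists_ex hm
    rw [coeff_fm]
    exact h j
  · rw [(hom_fm a).coeff_eq_zero hm, map_zero]
    exact zero_lt_one

theorem coeff_le {a : Fin (d + 1) → k} (h : ∀ j, v (a j) ≤ 1) (m : Fin 2 →₀ ℕ) :
    v ((fm a).coeff m) ≤ 1 := by
  by_cases hm : m.degree = d
  · obtain ⟨j, rfl⟩ := exists_ex hm
    rw [coeff_fm]
    exact h j
  · rw [(hom_fm a).coeff_eq_zero hm, map_zero]
    exact zero_le_one

end Val

variable {K : Type} [Field K] [NumberField K] {d : ℕ}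

/-- a form without zero modulo `v` is a unit at the primitive vectors -/
theorem unit_of_free (v : HeightOneSpectrum (𝓞 K)) (a : Fin (d + 1) → 𝓞 K)
    (h1 : ∀ z : Fin 2 → 𝓞 K ⧸ v.asIdeal, z ≠ 0 → MvPolynomial.eval z
      (fm fun j : Fin (d + 1) => Ideal.Quotient.mk v.asIdeal (a j)) ≠ 0)
    (x : Fin 2 → K) (hx : nv (v.valuation K) x = 1) :
    v.valuation K (MvPolynomial.eval x (fm fun j : Fin (d + 1) => (a j : K))) = 1 := by
  have hxle : ∀ l, v.valuation K (x l) ≤ 1 := fun l => hx ▸ le_nv (v := v.valuation K) x l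
  choose b hb using fun l => exists_int v (hxle l)
  have hb0 : (fun l => Ideal.Quotient.mk v.asIdeal (b l)) ≠ 0 := by
    intro h0
    obtain ⟨l, hl⟩ := exists_nv (v.valuation K) x
    rw [hx] at hl
    have h2 : v.valuation K (b l : K) < 1 := by
      rw [v.valuation_lt_one_iff_mem, ← Ideal.Quotient.eq_zero_iff_mem]
      exact congrFun h0 l
    have h3 : v.valuation K (x l - b l + b l) < 1 := Valuation.map_add_lt _ (hb l) h2
    rw [sub_add_cancel, hl] at h3
    exact lt_irrefl _ h3
  have h2 := h1 _ hb0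
  have h3 : MvPolynomial.eval (fun l => Ideal.Quotient.mk v.asIdeal (b l))
      (fm fun j : Fin (d + 1) => Ideal.Quotient.mk v.asIdeal (a j)) =
      Ideal.Quotient.mk v.asIdeal (MvPolynomial.eval b (fm a)) := by
    unfold fm
    simp only [map_sum, map_mul, map_pow, MvPolynomial.eval_C, MvPolynomial.eval_X]
  have h4 : ((MvPolynomial.eval b (fm a) : 𝓞 K) : K) =
      MvPolynomial.eval (fun l => (b l : K)) (fm fun j : Fin (d + 1) => (a j : K)) := by
    unfold fm
    simp only [map_sum, map_mul, map_pow, MvPolynomial.eval_C, MvPolynomial.eval_X]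
  rw [h3, ← unit_iff, h4] at h2
  have hc : ∀ m, v.valuation K ((fm fun j : Fin (d + 1) => (a j : K)).coeff m) ≤ 1 :=
    coeff_le fun j => v.valuation_le_one (a j)
  have h5 : v.valuation K (MvPolynomial.eval (fun l => (b l : K))
      (fm fun j : Fin (d + 1) => (a j : K)) -
      MvPolynomial.eval x (fm fun j : Fin (d + 1) => (a j : K))) < 1 := by
    refine eval_sub_lt hc (fun l => v.valuation_le_one (b l)) hxle fun l => ?_
    rw [Valuation.map_sub_swap]
    exact hb l
  refine le_antisymm (eval_le_one hc hxle) ?_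
  by_contra h6
  push Not at h6
  have h7 : v.valuation K (MvPolynomial.eval (fun l => (b l : K))
      (fm fun j : Fin (d + 1) => (a j : K)) -
      MvPolynomial.eval x (fm fun j : Fin (d + 1) => (a j : K)) +
      MvPolynomial.eval x (fm fun j : Fin (d + 1) => (a j : K))) < 1 :=
    Valuation.map_add_lt _ h5 h6
  rw [sub_add_cancel, h2] at h7
  exact lt_irrefl _ h7

end Pool.Agent.PLY
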