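import Mathlib
import Pool.Agent.AAP.Cnt

set_option autoImplicit false

/-!
# The number of the bad classes
-/

namespace Pool.Agent.PLY

open Pool.Agent.AAP (Free)

/-- the number of the bad classes -/
theorem card_bad {k : Type} [Field k] [Finite k] {d : ℕ} (hd : 2 ≤ d) (hq : 8 * d ≤ Nat.card k) :
    (({s : Fin (d + 2) → k | ¬ (s 0 = 0 ∧ Free fun i : Fin (d + 1) => s i.succ)}).ncard : ℝ) ≤
      (1 - (1 / (4 * (d : ℝ))) * ((Nat.card k : ℝ))⁻¹) * (Nat.card k : ℝ) ^ (d + 2) := by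
  classical
  obtain ⟨A, hA⟩ : ∃ A : Set (Fin (d + 2) → k),
    A = {s : Fin (d + 2) → k | s 0 = 0 ∧ Free fun i : Fin (d + 1) => s i.succ} := ⟨_, rfl⟩
  have h1 : {s : Fin (d + 2) → k | ¬ (s 0 = 0 ∧ Free fun i : Fin (d + 1) => s i.succ)} = Aᶜ := by
    rw [hA]
    rfl
  have h2 : A = (fun a : Fin (d + 1) → k => (Fin.cons 0 a : Fin (d + 2) → k)) ''
      {a : Fin (d + 1) → k | Free a} := by
    rw [hA]
    ext s
    constructor
    · rintro ⟨h3, h4⟩
      refine ⟨fun i => s i.succ, h4, ?_⟩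
      funext i
      refine Fin.cases ?_ (fun i => ?_) i
      · exact h3.symm
      · rfl
    · rintro ⟨a, ha, rfl⟩
      refine ⟨Fin.cons_zero _ _, ?_⟩
      exact ha
  have h3 : A.ncard = ({a : Fin (d + 1) → k | Free a}).ncard := by
    rw [h2]
    refine Set.ncard_image_of_injective _ fun a b hab => ?_
    exact (Fin.cons_injective2 hab).2
  have h4 : A.ncard + Aᶜ.ncard = Nat.card k ^ (d + 2) := by
    rw [Set.ncard_add_ncard_compl, Nat.card_fun, Nat.card_fin]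
  have h5 := AAP.free_card (k := k) hd hq
  rw [← h3] at h5
  have h6 : (A.ncard : ℝ) + (Aᶜ.ncard : ℝ) = (Nat.card k : ℝ) ^ (d + 2) := by
    exact_mod_cast h4
  rw [h1]
  have hd0 : (0 : ℝ) < d := by exact_mod_cast (by omega : 0 < d)
  have hk0 : (0 : ℝ) < (Nat.card k : ℝ) := by exact_mod_cast (by omega : 0 < Nat.card k)
  have h7 : (1 - (1 / (4 * (d : ℝ))) * ((Nat.card k : ℝ))⁻¹) * (Nat.card k : ℝ) ^ (d + 2) =
      (Nat.card k : ℝ) ^ (d + 2) - (Nat.card k : ℝ) ^ (d + 1) / (4 * d) := by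
    field_simp
    ring
  rw [h7]
  linarith

end Pool.Agent.PLY
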