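import Mathlib
import Pool.Agent.PLY.Defs
import Pool.Agent.AAP.TpA

set_option autoImplicit false

/-!
# Almost all numerators over a fixed denominator give rational maps of degree `d`
-/

namespace Pool.Agent.PLY

open NumberField
open Pool.Agent.PNH (Tup app mp IsMor)
open Pool.Agent.AAP (fm vc)
open Pool.Agent.LIM (Null)
open Pool.Agent.FamK (ev)

namespace Mor

/-- a nontrivial linear relation between the coordinates is rare, over the integers -/
theorem null_linO {K : Type} [Field K] [NumberField K] {r m R : ℕ}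
    (ω : Module.Basis (Fin m) ℤ (𝓞 K)) (e : Fin R ≃ Fin r × Fin m) (a : Fin r → 𝓞 K)
    (ha : a ≠ 0) : Null {s : Fin R → ℤ | ∑ i, a i * vc ω e s i = 0} := by
  classical
  obtain ⟨i0, hi0⟩ : ∃ i, a i ≠ 0 := by
    by_contra h
    push Not at h
    exact ha (funext h)
  have hne : Nonempty (Fin m) := by
    by_contra h
    have hemp : IsEmpty (Fin m) := not_nonempty_iff.1 h
    have h1 : (1 : 𝓞 K) = 0 := by
      rw [← ω.sum_repr 1]
      simp
    exact one_ne_zero h1
  obtain ⟨j0⟩ := hne
  let D : MvPolynomial (Fin R) (𝓞 K) :=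
    ∑ i : Fin r, ∑ j : Fin m, MvPolynomial.C (a i * ω j) * MvPolynomial.X (e.symm (i, j))
  have hev : ∀ s : Fin R → ℤ, ev s D = ∑ i, a i * vc ω e s i := by
    intro s
    unfold ev vc
    simp only [D, map_sum, map_mul, MvPolynomial.eval_C, MvPolynomial.eval_X, Finset.mul_sum]
    refine Finset.sum_congr rfl fun i _ => Finset.sum_congr rfl fun j _ => ?_
    rw [zsmul_eq_mul]
    ring
  have hD : D ≠ 0 := by
    intro h
    have h1 := congrArg (ev fun k => if k = e.symm (i0, j0) then (1 : ℤ) else 0) h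
    rw [hev, map_zero, Finset.sum_eq_single i0] at h1
    · have h2 : vc ω e (fun k => if k = e.symm (i0, j0) then (1 : ℤ) else 0) i0 = ω j0 := by
        unfold vc
        rw [Finset.sum_eq_single j0]
        · simp
        · intro j _ hj
          change (if e.symm (i0, j) = e.symm (i0, j0) then (1 : ℤ) else 0) • ω j = 0
          rw [if_neg, zero_smul]
          intro h3
          exact hj (Prod.ext_iff.1 (e.symm.injective h3)).2
        · intro h3
          exact absurd (Finset.mem_univ _) h3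
      rw [h2] at h1
      exact (mul_ne_zero hi0 (ω.ne_zero j0)) h1
    · intro i _ hi
      have h2 : vc ω e (fun k => if k = e.symm (i0, j0) then (1 : ℤ) else 0) i = 0 := by
        unfold vc
        refine Finset.sum_eq_zero fun j _ => ?_
        change (if e.symm (i, j) = e.symm (i0, j0) then (1 : ℤ) else 0) • ω j = 0
        rw [if_neg, zero_smul]
        intro h3
        exact hi (Prod.ext_iff.1 (e.symm.injective h3)).1
      rw [h2, mul_zero]
    · intro h3
      exact absurd (Finset.mem_univ _) h3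
  refine LIM.Null.mono (fun s hs => ?_) (LIM.null_zeros D hD)
  change ev s D = 0
  rw [hev]
  exact hs

/-- the same over the field -/
theorem null_linK {K : Type} [Field K] [NumberField K] {r m R : ℕ}
    (ω : Module.Basis (Fin m) ℤ (𝓞 K)) (e : Fin R ≃ Fin r × Fin m) (a : Fin r → K)
    (ha : a ≠ 0) : Null {s : Fin R → ℤ | ∑ i, a i * ((vc ω e s i : 𝓞 K) : K) = 0} := by
  classical
  obtain ⟨b, hb⟩ := IsLocalization.exist_integer_multiples_of_finite (nonZeroDivisors (𝓞 K)) a
  choose c hc using hb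
  have hb0 : ((b : 𝓞 K) : K) ≠ 0 := by
    have := nonZeroDivisors.coe_ne_zero b
    exact fun h => this (by exact_mod_cast h)
  have hc' : ∀ i, ((c i : 𝓞 K) : K) = ((b : 𝓞 K) : K) * a i := fun i => by
    have := hc i
    rw [Algebra.smul_def] at this
    exact this
  have hc0 : c ≠ 0 := by
    intro h
    apply ha
    funext i
    have h1 := hc' i
    rw [h] at h1
    simp only [Pi.zero_apply, map_zero] at h1
    exact (mul_eq_zero.1 h1.symm).resolve_left hb0
  refine LIM.Null.mono (fun s hs => ?_) (null_linO ω e c hc0)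
  have hs1 : ∑ i, a i * ((vc ω e s i : 𝓞 K) : K) = 0 := hs
  change ∑ i, c i * vc ω e s i = 0
  have h1 : algebraMap (𝓞 K) K (∑ i, c i * vc ω e s i) = 0 := by
    rw [map_sum]
    have h2 : ∀ i, algebraMap (𝓞 K) K (c i * vc ω e s i) =
        ((b : 𝓞 K) : K) * (a i * ((vc ω e s i : 𝓞 K) : K)) := fun i => by
      rw [map_mul, ← mul_assoc, ← hc' i]
    rw [Finset.sum_congr rfl fun i _ => h2 i, ← Finset.mul_sum, hs1, mul_zero]
  exact (map_eq_zero_iff _ (FaithfulSMul.algebraMap_injective (𝓞 K) K)).1 h1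

/-- the same with coefficients in an extension -/
theorem null_linL {K : Type} [Field K] [NumberField K] {r m R : ℕ}
    (ω : Module.Basis (Fin m) ℤ (𝓞 K)) (e : Fin R ≃ Fin r × Fin m) {L : Type} [Field L]
    [Algebra K L] (a : Fin r → L) (ha : a ≠ 0) :
    Null {s : Fin R → ℤ | ∑ i, a i * algebraMap K L ((vc ω e s i : 𝓞 K) : K) = 0} := by
  classical
  obtain ⟨i0, hi0⟩ : ∃ i, a i ≠ 0 := by
    by_contra h
    push Not at h
    exact ha (funext h)
  obtain ⟨φ, hφ⟩ : ∃ φ : Module.Dual K L, φ (a i0) ≠ 0 := by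
    by_contra h
    push Not at h
    exact hi0 ((Module.forall_dual_apply_eq_zero_iff K (a i0)).1 h)
  refine LIM.Null.mono (fun s hs => ?_) (null_linK ω e (fun i => φ (a i))
    (fun h => hφ (congrFun h i0)))
  have hs1 : ∑ i, a i * algebraMap K L ((vc ω e s i : 𝓞 K) : K) = 0 := hs
  change ∑ i, φ (a i) * ((vc ω e s i : 𝓞 K) : K) = 0
  have h2 := congrArg φ hs1
  rw [map_zero, map_sum] at h2
  rw [← h2]
  refine Finset.sum_congr rfl fun i _ => ?_
  rw [mul_comm (a i), ← Algebra.smul_def, map_smul, smul_eq_mul, mul_comm]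

/-- the value of a binary form over an extension -/
theorem eval_map_fm' {K L : Type} [Field K] [Field L] [Algebra K L] {d : ℕ} (a : Fin (d + 1) → K)
    (z : Fin 2 → L) : MvPolynomial.eval z (MvPolynomial.map (algebraMap K L) (fm a)) =
      ∑ i : Fin (d + 1), algebraMap K L (a i) * z 0 ^ (i : ℕ) * z 1 ^ (d - (i : ℕ)) := by
  unfold fm
  simp

end Mor

/-- PLY/Mor (4): 100 per cent are rational maps of degree `d` -/
theorem null_pf {K : Type} [Field K] [NumberField K] {d : ℕ} (_hd : 2 ≤ d)
    (H : MvPolynomial (Fin 2) K) (hH : H.IsHomogeneous d) (hH0 : H ≠ 0) {m R : ℕ}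
    (ω : Module.Basis (Fin m) ℤ (𝓞 K)) (e : Fin R ≃ Fin (d + 2) × Fin m) :
    Null {s : Fin R → ℤ | ¬ IsMor d K (pf H fun i => ((vc ω e s i : 𝓞 K) : K))} := by
  classical
  set L := AlgebraicClosure K with hL
  -- `H` is a form with coefficients `c`
  obtain ⟨c, hc⟩ : ∃ c : Fin (d + 1) → K, H = fm c := ⟨_, AAP.PosA.eq_fm hH⟩
  have hc0 : ∃ j, c j ≠ 0 := by
    by_contra h
    push Not at h
    apply hH0
    rw [hc]
    unfold fm
    simp [h]
  obtain ⟨j0, hj0⟩ := hc0
  let hp : Polynomial L := ∑ j : Fin (d + 1), Polynomial.C (algebraMap K L (c j)) *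
    Polynomial.X ^ (j : ℕ)
  have hp0 : hp ≠ 0 := by
    intro h
    have h1 := congrArg (fun p => Polynomial.coeff p (j0 : ℕ)) h
    simp only [hp, Polynomial.finsetSum_coeff, Polynomial.coeff_C_mul, Polynomial.coeff_X_pow,
      Polynomial.coeff_zero] at h1
    rw [Finset.sum_eq_single j0] at h1
    · rw [if_pos rfl, mul_one] at h1
      exact hj0 ((map_eq_zero _).1 h1)
    · intro j _ hj
      rw [if_neg, mul_zero]
      intro h3
      exact hj (Fin.ext h3.symm)
    · intro h3
      exact absurd (Finset.mem_univ _) h3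
  -- the representatives of the zeros
  let P : Option hp.roots.toFinset → Fin 2 → L := fun o =>
    match o with
    | none => ![1, 0]
    | some r => ![(r : L), 1]
  let a : Option hp.roots.toFinset → Fin (d + 2) → L := fun o =>
    Fin.cons 0 fun j : Fin (d + 1) => P o 0 ^ (j : ℕ) * P o 1 ^ (d - (j : ℕ))
  have ha : ∀ o, a o ≠ 0 := by
    intro o h
    cases o with
    | none =>
      have h1 := congrFun h (Fin.last d).succ
      simp [a, P] at h1
    | some r =>
      have h1 := congrFun h (0 : Fin (d + 1)).succ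
      simp only [a, P, Fin.cons_succ, Pi.zero_apply] at h1
      simp at h1
  have hN1 : Null (⋃ o, {s : Fin R → ℤ |
      ∑ i, a o i * algebraMap K L ((vc ω e s i : 𝓞 K) : K) = 0}) :=
    LIM.Null.iUnion fun o => Mor.null_linL ω e (a o) (ha o)
  have hN0 : Null {s : Fin R → ℤ |
      ∑ i, (Pi.single 0 1 : Fin (d + 2) → K) i * ((vc ω e s i : 𝓞 K) : K) = 0} :=
    Mor.null_linK ω e _ (fun h => by
      have h1 := congrFun h 0
      rw [Pi.single_eq_same] at h1
      exact one_ne_zero h1)
  refine LIM.Null.mono (fun s hs => ?_) (hN0.union hN1)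
  have hs1 : ¬ IsMor d K (pf H fun i => ((vc ω e s i : 𝓞 K) : K)) := hs
  by_cases ht0 : ((vc ω e s 0 : 𝓞 K) : K) = 0
  · left
    change ∑ i, (Pi.single 0 1 : Fin (d + 2) → K) i * ((vc ω e s i : 𝓞 K) : K) = 0
    rw [Finset.sum_eq_single 0]
    · rw [ht0, mul_zero]
    · intro i _ hi
      rw [Pi.single_eq_of_ne hi, zero_mul]
    · intro h3
      exact absurd (Finset.mem_univ _) h3
  right
  rw [Set.mem_iUnion]
  have hhom : ∀ i, (pf H (fun i => ((vc ω e s i : 𝓞 K) : K)) i).IsHomogeneous d := by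
    intro i
    fin_cases i
    · exact AAP.PosA.hom_fm _
    · have h1 := (MvPolynomial.isHomogeneous_C (Fin 2) ((vc ω e s 0 : 𝓞 K) : K)).mul hH
      rw [zero_add] at h1
      exact h1
  have hex : ∃ x : Fin 2 → L, app (mp (algebraMap K L) (pf H fun i => ((vc ω e s i : 𝓞 K) : K))) x =
      0 ∧ x ≠ 0 := by
    by_contra h
    push Not at h
    exact hs1 ⟨hhom, h⟩
  obtain ⟨x, hx, hx0⟩ := hex
  have e0 := congrFun hx 0
  have e1 := congrFun hx 1
  change MvPolynomial.eval x (MvPolynomial.map (algebraMap K L)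
    (fm fun i : Fin (d + 1) => ((vc ω e s i.succ : 𝓞 K) : K))) = 0 at e0
  change MvPolynomial.eval x (MvPolynomial.map (algebraMap K L)
    (MvPolynomial.C ((vc ω e s 0 : 𝓞 K) : K) * H)) = 0 at e1
  rw [Mor.eval_map_fm'] at e0
  rw [map_mul, map_mul, MvPolynomial.map_C, MvPolynomial.eval_C, mul_eq_zero] at e1
  have e2 := e1.resolve_left (fun h => ht0 ((map_eq_zero _).1 h))
  rw [hc, Mor.eval_map_fm'] at e2
  -- the common zero is one of the representatives
  have key : ∀ (l : L), l ≠ 0 → ∀ (o : Option hp.roots.toFinset), (∀ i, x i = l * P o i) →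
      ∃ o, s ∈ {s : Fin R → ℤ | ∑ i, a o i * algebraMap K L ((vc ω e s i : 𝓞 K) : K) = 0} := by
    intro l hl o ho
    refine ⟨o, ?_⟩
    change ∑ i, a o i * algebraMap K L ((vc ω e s i : 𝓞 K) : K) = 0
    rw [Fin.sum_univ_succ]
    simp only [a, Fin.cons_zero, Fin.cons_succ, zero_mul, zero_add]
    have h1 : l ^ d * ∑ i : Fin (d + 1), P o 0 ^ (i : ℕ) * P o 1 ^ (d - (i : ℕ)) *
        algebraMap K L ((vc ω e s i.succ : 𝓞 K) : K) = 0 := by
      rw [← e0, Finset.mul_sum]
      refine Finset.sum_congr rfl fun i _ => ?_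
      have h2 : l ^ d = l ^ (i : ℕ) * l ^ (d - (i : ℕ)) := by
        rw [← pow_add]
        congr 1
        have := i.2
        omega
      rw [ho 0, ho 1, mul_pow, mul_pow, h2]
      ring
    exact (mul_eq_zero.1 h1).resolve_left (pow_ne_zero _ hl)
  by_cases hx1 : x 1 = 0
  · have hx00 : x 0 ≠ 0 := fun h => hx0 (by funext i; fin_cases i; exacts [h, hx1])
    refine key (x 0) hx00 none fun i => ?_
    fin_cases i
    · simp [P]
    · simp [P, hx1]
  · have hr : Polynomial.eval (x 0 / x 1) hp = 0 := by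
      have h1 : x 1 ^ d * Polynomial.eval (x 0 / x 1) hp = 0 := by
        have h4 : Polynomial.eval (x 0 / x 1) hp =
            ∑ i : Fin (d + 1), algebraMap K L (c i) * (x 0 / x 1) ^ (i : ℕ) := by
          simp only [hp, Polynomial.eval_finsetSum, Polynomial.eval_mul, Polynomial.eval_C,
            Polynomial.eval_pow, Polynomial.eval_X]
        rw [← e2, h4, Finset.mul_sum]
        refine Finset.sum_congr rfl fun i _ => ?_
        have h2 : x 1 ^ d = x 1 ^ (i : ℕ) * x 1 ^ (d - (i : ℕ)) := by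
          rw [← pow_add]
          congr 1
          have := i.2
          omega
        have h3 : x 1 ^ (i : ℕ) ≠ 0 := pow_ne_zero _ hx1
        have h5 : x 1 ^ (i : ℕ) * (x 0 ^ (i : ℕ) / x 1 ^ (i : ℕ)) = x 0 ^ (i : ℕ) := by
          rw [mul_div_assoc', mul_comm, mul_div_assoc, div_self h3, mul_one]
        rw [h2, div_pow]
        linear_combination (algebraMap K L (c i) * x 1 ^ (d - (i : ℕ))) * h5
      exact (mul_eq_zero.1 h1).resolve_left (pow_ne_zero _ hx1)
    have hmem : x 0 / x 1 ∈ hp.roots.toFinset := by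
      rw [Multiset.mem_toFinset, Polynomial.mem_roots hp0]
      exact hr
    refine key (x 1) hx1 (some ⟨x 0 / x 1, hmem⟩) fun i => ?_
    fin_cases i
    · simp [P, mul_div_cancel₀, hx1]
    · simp [P]

end Pool.Agent.PLY
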