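import Mathlib
import Pool.Agent.AAP.Cnt
import Pool.Agent.AAP.Siv
import Pool.Agent.AAP.NMp
import Pool.Agent.TameArb.Cheb

set_option autoImplicit false

/-!
# The sieve for polynomials: a prime which divides the denominator and modulo which the numerator
has no zero
-/

namespace Pool.Agent.PLY

open NumberField IsDedekindDomain
open Pool.Agent.AAP (vc fm tp Free sieve)
open Pool.Agent.TameArb (PosDens)
open Pool.Agent.LIM (Null)

variable {K : Type} [Field K] [NumberField K]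

variable (K) in
theorem pd_univ : PosDens (Set.univ : Set (HeightOneSpectrum (𝓞 K))) := by
  have h : PosDens {v : HeightOneSpectrum (𝓞 K) | ∃ w : HeightOneSpectrum (𝓞 K),
      w.under (𝓞 K) = v ∧ ∀ z : K, w.valuation K ((1 : K ≃ₐ[K] K) z) = w.valuation K z} :=
    TameArb.fixed_primes K K 1 1 one_pos (one_pow 1)
  exact h.mono Set.finite_empty fun v _ => Or.inr (Set.mem_univ v)

/-- `b = 0`, and the form with coefficients `u` has no zero -/
def Hg (k : Type) [CommRing k] (d : ℕ) : Set (Fin (d + 2) → k) :=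
  {t | t 0 = 0 ∧ ∀ z : Fin 2 → k, z ≠ 0 →
    MvPolynomial.eval z (fm fun j : Fin (d + 1) => t j.succ) ≠ 0}

theorem card_Hg {k : Type} [Field k] [Finite k] {d : ℕ} (hd : 2 ≤ d) (hq : 8 * d ≤ Nat.card k) :
    (Nat.card k : ℝ) ^ (d + 1) / (4 * d) ≤ ((Hg k d).ncard : ℝ) := by
  refine (AAP.free_card hd hq).trans ?_
  have hinj : Function.Injective fun a : Fin (d + 1) → k => (Fin.cons 0 a : Fin (d + 2) → k) := by
    intro a b h
    funext j
    have h' := congrFun h j.succ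
    simpa only [Fin.cons_succ] using h'
  have h1 : ({a | Free a} : Set (Fin (d + 1) → k)).ncard =
      ((fun a : Fin (d + 1) → k => (Fin.cons 0 a : Fin (d + 2) → k)) '' {a | Free a}).ncard :=
    (Set.ncard_image_of_injective _ hinj).symm
  rw [h1]
  have h2 : ((fun a : Fin (d + 1) → k => (Fin.cons 0 a : Fin (d + 2) → k)) '' {a | Free a}) ⊆
      Hg k d := by
    rintro _ ⟨a, ha, rfl⟩
    refine ⟨rfl, fun z hz => ?_⟩
    simp only [Fin.cons_succ]
    exact ha z hz
  exact_mod_cast Set.ncard_le_ncard h2 (Set.toFinite _)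

/-- outside a null set some prime outside `B` divides `b` and the form with coefficients `u` has
no zero modulo this prime -/
theorem null_pol {d m R : ℕ} (hd : 2 ≤ d) (ω : Module.Basis (Fin m) ℤ (𝓞 K))
    (e : Fin R ≃ Fin (d + 2) × Fin m) (B : Set (HeightOneSpectrum (𝓞 K))) (hB : B.Finite) :
    Null {s : Fin R → ℤ | ¬ ∃ v, v ∉ B ∧ vc ω e s 0 ∈ v.asIdeal ∧
      ∀ z : Fin 2 → 𝓞 K ⧸ v.asIdeal, z ≠ 0 → MvPolynomial.eval z
        (fm fun j : Fin (d + 1) => Ideal.Quotient.mk v.asIdeal (vc ω e s j.succ)) ≠ 0} := by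
  classical
  set B' : Set (HeightOneSpectrum (𝓞 K)) := B ∪ {v | Ideal.absNorm v.asIdeal < 8 * d} with hB'
  have hB'f : B'.Finite := hB.union (AAP.NMpA.small_norm _)
  refine Null.mono ?_ (sieve ω e (Set.univ \ B') (fun v => (Hg (𝓞 K ⧸ v.asIdeal) d)ᶜ)
    (fun v => (1 / (4 * d : ℝ)) * ((Ideal.absNorm v.asIdeal : ℝ))⁻¹) (fun v _ => by positivity)
    ?_ ?_)
  · rintro s hs v ⟨-, hv⟩ ⟨h0, h1⟩
    apply hs
    refine ⟨v, fun h => hv (Or.inl h), Ideal.Quotient.eq_zero_iff_mem.1 h0, h1⟩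
  · rintro v ⟨-, hv⟩
    have hfin : Finite (𝓞 K ⧸ v.asIdeal) := Ideal.finiteQuotientOfFreeOfNeBot _ v.ne_bot
    have hmax := v.isMaximal
    let _ := Ideal.Quotient.field v.asIdeal
    have hq : Nat.card (𝓞 K ⧸ v.asIdeal) = Ideal.absNorm v.asIdeal := by
      rw [Ideal.absNorm_apply]
      rfl
    have h1 : 8 * d ≤ Nat.card (𝓞 K ⧸ v.asIdeal) := by
      rw [hq]
      by_contra hcon
      exact hv (Or.inr (not_le.1 hcon))
    have h2 := card_Hg hd h1
    rw [hq] at h2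
    have h3 : ((Hg (𝓞 K ⧸ v.asIdeal) d)ᶜ).ncard + (Hg (𝓞 K ⧸ v.asIdeal) d).ncard =
        Ideal.absNorm v.asIdeal ^ (d + 2) := by
      rw [add_comm, Set.ncard_add_ncard_compl, Nat.card_fun, Nat.card_fin, hq]
    have h4 : (((Hg (𝓞 K ⧸ v.asIdeal) d)ᶜ).ncard : ℝ) + ((Hg (𝓞 K ⧸ v.asIdeal) d).ncard : ℝ) =
        (Ideal.absNorm v.asIdeal : ℝ) ^ (d + 2) := by exact_mod_cast h3
    have hq0 : (0 : ℝ) < (Ideal.absNorm v.asIdeal : ℝ) := by
      have := TameArb.two_le_norm K v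
      exact_mod_cast (by omega : 0 < Ideal.absNorm v.asIdeal)
    have h5 : (1 / (4 * d : ℝ)) * ((Ideal.absNorm v.asIdeal : ℝ))⁻¹ *
        (Ideal.absNorm v.asIdeal : ℝ) ^ (d + 2) =
        (Ideal.absNorm v.asIdeal : ℝ) ^ (d + 1) / (4 * d) := by
      rw [pow_succ (Ideal.absNorm v.asIdeal : ℝ) (d + 1)]
      field_simp
    rw [sub_mul, one_mul, h5]
    linarith
  · intro h
    refine AAP.PosDens.div (pd_univ K) hB'f ?_
    have hd0 : (0 : ℝ) < 4 * d := by
      have : 0 < d := by omega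
      positivity
    have h2 := h.mul_left (4 * d : ℝ)
    refine h2.congr fun v => ?_
    rw [← mul_assoc, mul_one_div_cancel hd0.ne', one_mul]

end Pool.Agent.PLY
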