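import Mathlib
import Pool.Agent.PLY.Defs
import Pool.Agent.AAP.Fin

set_option autoImplicit false

/-!
# Random numerators, ordered by height
-/

namespace Pool.Agent.PLY

open NumberField IsDedekindDomain
open Pool.Agent.PNH (Tup app mp IsMor Cert)
open Pool.Agent.AAP (wd fm vc SP Periodic Free nv)
open Pool.Agent.TameArb (PosDens)
open Pool.Agent.LIM (Null)
open Pool.Agent.HTK (sc)
open Pool.Agent.FamK (ev)

namespace HgtA

variable {K : Type} [Field K] [NumberField K] {d : ℕ}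

theorem gd_sc {F : Tup 1 K} {c : K} (hc : c ≠ 0) (h : Gd d F) : Gd d (sc c F) := by
  refine ⟨HTK.isMor_sc _ c hc h.1, fun Γ hΓ => ?_⟩
  refine AAP.FinA.sp_sc h.1.1 hc Γ (h.2 Γ fun x hx => ⟨(hΓ x hx).1, ?_⟩)
  rintro ⟨n, hn, h1⟩
  refine (hΓ x hx).2 ⟨n, hn, ?_⟩
  obtain ⟨a, ha, h2⟩ := HTK.iter_sc F h.1.1 c hc n x
  rw [h2]
  unfold wd at h1 ⊢
  simp only [Pi.smul_apply, smul_eq_mul]
  linear_combination a * h1

theorem pf_sc (H : MvPolynomial (Fin 2) K) (t : Fin (d + 2) → K) (ht : t 0 ≠ 0) :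
    sc (t 0)⁻¹ (pf H t) = ![fm fun i : Fin (d + 1) => t i.succ / t 0, H] := by
  funext i
  fin_cases i
  · change MvPolynomial.C (t 0)⁻¹ * fm (fun i : Fin (d + 1) => t i.succ) =
      fm fun i : Fin (d + 1) => t i.succ / t 0
    unfold fm
    rw [Finset.mul_sum]
    refine Finset.sum_congr rfl fun j _ => ?_
    simp only [div_eq_inv_mul, map_mul]
    ring
  · change MvPolynomial.C (t 0)⁻¹ * (MvPolynomial.C (t 0) * H) = H
    rw [← mul_assoc, ← map_mul, inv_mul_cancel₀ ht, map_one, one_mul]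

theorem null_zero {r m R : ℕ} (ω : Module.Basis (Fin m) ℤ (𝓞 K)) (e : Fin R ≃ Fin r × Fin m)
    (i : Fin r) : Null {s : Fin R → ℤ | vc ω e s i = 0} := by
  classical
  have : Nonempty (Fin m) := ω.index_nonempty
  let j : Fin m := Classical.arbitrary _
  refine (LIM.null_zeros (K := K) (MvPolynomial.X (e.symm (i, j)))
    (MvPolynomial.X_ne_zero _)).mono ?_
  intro s hs
  have h1 := Fintype.linearIndependent_iff.1 ω.linearIndependent (fun j => s (e.symm (i, j))) hs j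
  change ev s (MvPolynomial.X (e.symm (i, j))) = 0
  simp [ev, h1]

end HgtA

open HgtA

theorem height_pol_of {K : Type} [Field K] [NumberField K] {d : ℕ}
    (H : MvPolynomial (Fin 2) K)
    (hnull : ∀ (m R : ℕ) (ω : Module.Basis (Fin m) ℤ (𝓞 K)) (e : Fin R ≃ Fin (d + 2) × Fin m),
      Null {s : Fin R → ℤ | ¬ Gd d (pf H fun i => ((vc ω e s i : 𝓞 K) : K))})
    (ε : ℝ) (hε : 0 < ε) :
    ∃ B₀ : ℝ, ∀ B : ℝ, B₀ ≤ B →
      (({s : Fin (d + 1) → K | Height.mulHeight (Fin.cons 1 s : Fin (d + 1 + 1) → K) ≤ B ∧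
          ¬ Gd d ![fm s, H]}.ncard : ℕ) : ℝ) ≤
        ε * ({s : Fin (d + 1) → K |
          Height.mulHeight (Fin.cons 1 s : Fin (d + 1 + 1) → K) ≤ B}.ncard : ℕ) := by
  refine HFW.aff_of_proj (fun s => Gd d ![fm s, H]) (fun ε hε => ?_) ε hε
  let n := Module.finrank ℤ (𝓞 K)
  let ω : Module.Basis (Fin n) ℤ (𝓞 K) := Module.finBasis ℤ (𝓞 K)
  let e : Fin ((d + 2) * n) ≃ Fin (d + 2) × Fin n := finProdFinEquiv.symm
  refine HTK.den K (d + 2) (by omega) ω e
    (fun t => t 0 = 0 ∨ ¬ Gd d ![fm fun i : Fin (d + 1) => t i.succ / t 0, H]) ?_ ?_ ε hε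
  · rintro c t hc (h | h)
    · exact Or.inl (by rw [Pi.smul_apply, h, smul_zero])
    · refine Or.inr ?_
      convert! h using 5
      simp only [Pi.smul_apply, smul_eq_mul]
      rw [mul_div_mul_left _ _ hc]
  · refine ((null_zero ω e 0).union (hnull n _ ω e)).mono ?_
    rintro z (h | h)
    · left
      have h' : ((vc ω e z 0 : 𝓞 K) : K) = 0 := h
      exact_mod_cast h'
    · by_cases h0 : vc ω e z 0 = 0
      · exact Or.inl h0
      · right
        intro hg
        refine h ?_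
        have h0' : ((vc ω e z 0 : 𝓞 K) : K) ≠ 0 := by exact_mod_cast h0
        have h1 := gd_sc (inv_ne_zero h0') hg
        rw [pf_sc H (fun i => ((vc ω e z i : 𝓞 K) : K)) h0'] at h1
        exact h1

end Pool.Agent.PLY
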