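import Mathlib
import Pool.Agent.PLY.Ctr
import Pool.Agent.PLY.Fre

set_option autoImplicit false

/-!
# The local condition suffices
-/

namespace Pool.Agent.PLY

open NumberField IsDedekindDomain
open scoped WithZero
open Pool.Agent.PNH (Tup app mp IsMor Cert)
open Pool.Agent.AAP
open Pool.Agent.TameArb (PosDens)

/-- the local condition suffices -/
theorem good_of {K : Type} [Field K] [NumberField K] {d : ℕ} (hd : 2 ≤ d)
    (H : MvPolynomial (Fin 2) K) (v : HeightOneSpectrum (𝓞 K))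
    (hH : ∀ m, v.valuation K (H.coeff m) ≤ 1) (t : Fin (d + 2) → 𝓞 K) (h0 : t 0 ∈ v.asIdeal)
    (h1 : ∀ z : Fin 2 → 𝓞 K ⧸ v.asIdeal, z ≠ 0 → MvPolynomial.eval z
      (fm fun i : Fin (d + 1) => Ideal.Quotient.mk v.asIdeal (t i.succ)) ≠ 0)
    (hmor : IsMor d K (pf H fun i => (t i : K))) : Gd d (pf H fun i => (t i : K)) := by
  refine ⟨hmor, fun Γ hΓ => contr hd hmor v 1 0 (by decide) (fun m => ?_) (fun m => ?_)
    (fun x hx => ?_) Γ hΓ⟩
  · have h2 : (pf H fun i => (t i : K)) 1 = MvPolynomial.C (t 0 : K) * H := rfl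
    rw [h2, MvPolynomial.coeff_C_mul, map_mul, mul_comm]
    exact TameArb.mul_lt_one_aux (hH m) ((v.valuation_lt_one_iff_mem (K := K) _).2 h0)
  · exact coeff_le (fun j => v.valuation_le_one _) m
  · exact unit_of_free v (fun i : Fin (d + 1) => t i.succ) h1 x hx

end Pool.Agent.PLY
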