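import Mathlib
import Pool.Agent.PLY.Defs
import Pool.Agent.PLY.SvP
import Pool.Agent.PLY.Loc
import Pool.Agent.PLY.Mor
import Pool.Agent.LIM.NullS

set_option autoImplicit false

/-!
# 100 per cent of the numerators are good, in boxes
-/

namespace Pool.Agent.PLY

open NumberField IsDedekindDomain
open Pool.Agent.PNH (Tup app mp IsMor Cert)
open Pool.Agent.AAP (wd fm vc SP Periodic Free nv)
open Pool.Agent.TameArb (PosDens)
open Pool.Agent.LIM (Null)

/-- the primes at which some coefficient of `H` is not integral -/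
theorem finite_bad {K : Type} [Field K] [NumberField K] (H : MvPolynomial (Fin 2) K) :
    {v : HeightOneSpectrum (𝓞 K) | ¬ ∀ m, v.valuation K (H.coeff m) ≤ 1}.Finite := by
  classical
  have h1 : {v : HeightOneSpectrum (𝓞 K) | ¬ ∀ m, v.valuation K (H.coeff m) ≤ 1} ⊆
      ⋃ m ∈ H.support, {v : HeightOneSpectrum (𝓞 K) | ¬ v.valuation K (H.coeff m) ≤ 1} := by
    intro v hv
    rw [Set.mem_ofPred_eq, not_forall] at hv
    obtain ⟨m, hm⟩ := hv
    simp only [Set.mem_iUnion]
    refine ⟨m, ?_, hm⟩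
    rw [MvPolynomial.mem_support_iff]
    intro h0
    apply hm
    rw [h0, map_zero]
    exact zero_le_one
  refine (Set.Finite.biUnion (Finset.finite_toSet _) fun m _ => ?_).subset h1
  exact TameArb.finite_gt _

theorem null_gd {K : Type} [Field K] [NumberField K] {d : ℕ} (hd : 2 ≤ d)
    (H : MvPolynomial (Fin 2) K) (hH : H.IsHomogeneous d) (hH0 : H ≠ 0) {m R : ℕ}
    (ω : Module.Basis (Fin m) ℤ (𝓞 K)) (e : Fin R ≃ Fin (d + 2) × Fin m) :
    Null {s : Fin R → ℤ | ¬ Gd d (pf H fun i => ((vc ω e s i : 𝓞 K) : K))} := by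
  refine Null.mono ?_ ((null_pf hd H hH hH0 ω e).union (null_pol hd ω e _ (finite_bad H)))
  intro s hs
  by_contra hcon
  rw [Set.mem_union, not_or] at hcon
  obtain ⟨h1, h2⟩ := hcon
  rw [Set.mem_ofPred_eq, not_not] at h1 h2
  obtain ⟨v, hv, h0, hz⟩ := h2
  have hv' : ∀ m, v.valuation K (H.coeff m) ≤ 1 := by
    by_contra h
    exact hv h
  exact hs (good_of hd H v hv' (vc ω e s) h0 hz h1)

end Pool.Agent.PLY
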