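import Pool.Agent.PLY.Hgt
import Pool.Agent.PLY.NulG

set_option autoImplicit false

namespace Pool.Agent.PLY

open NumberField IsDedekindDomain
open Pool.Agent.AAP (fm vc)

/-- PLY/Hgt (6): 100 per cent of the numerators, by height -/
theorem height_pol {K : Type} [Field K] [NumberField K] {d : ℕ} (hd : 2 ≤ d)
    (H : MvPolynomial (Fin 2) K) (hH : H.IsHomogeneous d) (hH0 : H ≠ 0) (ε : ℝ) (hε : 0 < ε) :
    ∃ B₀ : ℝ, ∀ B : ℝ, B₀ ≤ B →
      (({s : Fin (d + 1) → K | Height.mulHeight (Fin.cons 1 s : Fin (d + 1 + 1) → K) ≤ B ∧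
          ¬ Gd d ![fm s, H]}.ncard : ℕ) : ℝ) ≤
        ε * ({s : Fin (d + 1) → K |
          Height.mulHeight (Fin.cons 1 s : Fin (d + 1 + 1) → K) ≤ B}.ncard : ℕ) :=
  height_pol_of H (fun _ _ ω e => null_gd hd H hH hH0 ω e) ε hε

end Pool.Agent.PLY
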